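import Pool.Agent.W543.GE.Stm

/-!
# Part LOCFIN
-/

set_option autoImplicit false

open scoped TensorProduct Kronecker Polynomial

universe u

namespace Pool.Agent.W778.GE

open Pool.Agent.W543.GE

section

variable {K : Type u} [Field K] {n : ℕ}

/-- contraction of the second factor with a functional -/
noncomputable def cc (l : A K n →ₗ[K] K) : (A K n ⊗[K] A K n) →ₗ[K] A K n :=
  (TensorProduct.rid K (A K n)).toLinearMap ∘ₗ LinearMap.lTensor (A K n) l

theorem cc_tmul (l : A K n →ₗ[K] K) (p q : A K n) : cc l (p ⊗ₜ[K] q) = l q • p := by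
  change (TensorProduct.rid K (A K n)) ((LinearMap.lTensor (A K n) l) (p ⊗ₜ[K] q)) = _
  rw [LinearMap.lTensor_tmul, TensorProduct.rid_tmul]

theorem nab_eq {φ : A K n →ₐ[K] A K n}
    {D : Fin n → (A K n →ₗ[K] A K n)} {nab : A K n →ₗ[K] A K n ⊗[K] A K n}
    (h : IsStrip φ D nab) (a : A K n) :
    nab a = a ⊗ₜ[K] 1 + ∑ k, nab (D k a) * ((1 : A K n) ⊗ₜ[K] φ (x k)) := by
  have h1 := h.decomp a
  have h2 : nab a = nab (algebraMap K (A K n) (eps a)) + ∑ j, nab (D j a * φ (x j)) := by
    conv_lhs => rw [h1]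
    rw [map_add, map_sum]
  have h3 : nab (algebraMap K (A K n) (eps a)) = (algebraMap K (A K n) (eps a)) ⊗ₜ[K] 1 := by
    rw [Algebra.algebraMap_eq_smul_one, map_smul, h.nab_one, Algebra.TensorProduct.one_def,
      TensorProduct.smul_tmul']
  rw [h2, h3]
  conv_rhs => rw [h1]
  simp only [h.nab_mul, Finset.sum_add_distrib, TensorProduct.add_tmul, TensorProduct.sum_tmul]
  rw [← h1, add_assoc]

theorem cc_strip {φ : A K n →ₐ[K] A K n}
    {D : Fin n → (A K n →ₗ[K] A K n)} {nab : A K n →ₗ[K] A K n ⊗[K] A K n}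
    (h : IsStrip φ D nab) (l : A K n →ₗ[K] K) (j k : Fin n) (z : A K n ⊗[K] A K n) :
    cc (l ∘ₗ D j) (z * ((1 : A K n) ⊗ₜ[K] φ (x k))) = if j = k then cc l z else 0 := by
  induction z using TensorProduct.induction_on with
  | zero => simp
  | tmul p q =>
    rw [Algebra.TensorProduct.tmul_mul_tmul, mul_one, cc_tmul, cc_tmul, LinearMap.comp_apply,
      h.D_mul]
    split_ifs <;> simp
  | add u v hu hv =>
    rw [add_mul, map_add, hu, hv, map_add]
    split_ifs <;> simp

theorem cc_D {φ : A K n →ₐ[K] A K n}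
    {D : Fin n → (A K n →ₗ[K] A K n)} {nab : A K n →ₗ[K] A K n ⊗[K] A K n}
    (h : IsStrip φ D nab) (l : A K n →ₗ[K] K) (j : Fin n) (a : A K n) :
    cc l (nab (D j a)) = cc (l ∘ₗ D j) (nab a) := by
  rw [nab_eq h a, map_add, cc_tmul, LinearMap.comp_apply, h.D_one, map_zero, zero_smul, zero_add,
    map_sum]
  simp only [cc_strip h]
  rw [Finset.sum_ite_eq]
  simp

theorem cc_eps {φ : A K n →ₐ[K] A K n} (h0 : ∀ k, eps (φ (x k)) = 0)
    {D : Fin n → (A K n →ₗ[K] A K n)} {nab : A K n →ₗ[K] A K n ⊗[K] A K n}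
    (h : IsStrip φ D nab) (a : A K n) :
    cc (eps : A K n →ₐ[K] K).toLinearMap (nab a) = a := by
  have h1 : ∀ (k : Fin n) (z : A K n ⊗[K] A K n),
      cc (eps : A K n →ₐ[K] K).toLinearMap (z * ((1 : A K n) ⊗ₜ[K] φ (x k))) = 0 := by
    intro k z
    induction z using TensorProduct.induction_on with
    | zero => simp
    | tmul p q =>
      rw [Algebra.TensorProduct.tmul_mul_tmul, mul_one, cc_tmul, AlgHom.toLinearMap_apply,
        map_mul, h0, mul_zero, zero_smul]
    | add u v hu hv => rw [add_mul, map_add, hu, hv, add_zero]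
  rw [nab_eq h a, map_add, cc_tmul, map_sum]
  simp only [h1]
  simp

theorem cc_word {φ : A K n →ₐ[K] A K n}
    {D : Fin n → Module.End K (A K n)} {nab : A K n →ₗ[K] A K n ⊗[K] A K n}
    (h : IsStrip φ D nab) (a : A K n) (w : List (Fin n)) (l : A K n →ₗ[K] K) :
    cc l (nab ((w.map D).prod a)) = cc (l ∘ₗ (w.map D).prod) (nab a) := by
  induction w generalizing l with
  | nil => simp only [List.map_nil, List.prod_nil]; rfl
  | cons j w ih =>
    rw [List.map_cons, List.prod_cons]
    change cc l (nab (D j ((w.map D).prod a))) = _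
    rw [cc_D h, ih]
    rfl

theorem fin_cc (z : A K n ⊗[K] A K n) : ∃ V : Submodule K (A K n), FiniteDimensional K V ∧
    ∀ l : A K n →ₗ[K] K, cc l z ∈ V := by
  induction z using TensorProduct.induction_on with
  | zero => exact ⟨⊥, inferInstance, fun l => by simp⟩
  | tmul p q =>
    refine ⟨Submodule.span K {p}, inferInstance, fun l => ?_⟩
    rw [cc_tmul]
    exact Submodule.smul_mem _ _ (Submodule.mem_span_singleton_self p)
  | add u v hu hv =>
    obtain ⟨V, hV, hV2⟩ := hu
    obtain ⟨W, hW, hW2⟩ := hv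
    refine ⟨V ⊔ W, inferInstance, fun l => ?_⟩
    rw [map_add]
    exact Submodule.add_mem_sup (hV2 l) (hW2 l)

theorem locfin {φ : A K n →ₐ[K] A K n} (h0 : ∀ k, eps (φ (x k)) = 0)
    {D : Fin n → Module.End K (A K n)} {nab : A K n →ₗ[K] A K n ⊗[K] A K n}
    (h : IsStrip φ D nab) (a : A K n) :
    ∃ V : Submodule K (A K n), FiniteDimensional K V ∧ a ∈ V ∧ ∀ j, ∀ v ∈ V, D j v ∈ V := by
  obtain ⟨V₀, hV₀, hV2⟩ := fin_cc (nab a)
  set V : Submodule K (A K n) := Submodule.span K (Set.range fun w : List (Fin n) =>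
    (w.map D).prod a) with hV
  have hle : V ≤ V₀ := by
    rw [hV, Submodule.span_le]
    rintro _ ⟨w, rfl⟩
    change (w.map D).prod a ∈ V₀
    rw [← cc_eps h0 h ((w.map D).prod a), cc_word h]
    exact hV2 _
  refine ⟨V, Submodule.finiteDimensional_of_le hle, ?_, ?_⟩
  · exact Submodule.subset_span ⟨[], by simp⟩
  · intro j v hv
    induction hv using Submodule.span_induction with
    | mem y hy =>
      obtain ⟨w, rfl⟩ := hy
      exact Submodule.subset_span ⟨j :: w, by simp [List.prod_cons]⟩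
    | zero => rw [map_zero]; exact Submodule.zero_mem _
    | add y z _ _ hy hz => rw [map_add]; exact Submodule.add_mem _ hy hz
    | smul r y _ hy => rw [map_smul]; exact Submodule.smul_mem _ _ hy

end

theorem t_LOCFIN : LOCFIN_stmt.{u} := by
  intro K _ n φ D nab h0 h a
  exact locfin h0 h a

end Pool.Agent.W778.GE
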